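import Mathlib
import Pool.Agent.H35_SD.Samp

set_option autoImplicit false

/-!
`T` copies of a large finite set without complete four-partite subgraphs with parts of `K` elements from four
different copies: one random element of each copy and Turán's theorem.
-/

namespace Pool.Agent.H35_SL

open Finset
open Pool.Agent.H35_SD (cnt cnt_le turan ec card_pull_le)

/-- the number of pairs forced by Turán's theorem: `⌈T (T - 3) / 6⌉` -/
def R (T : ℕ) : ℕ := (T * (T - 3) + 5) / 6

open Classical in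
theorem finite_pairs {T : ℕ} (N : Fin T → Fin T → Prop) (hs : ∀ i j, N i j → N j i)
    (h4 : ∀ q : Fin 4 → Fin T, Function.Injective q → ¬ ∀ g g', g ≠ g' → N (q g) (q g')) :
    R T ≤ ((univ : Finset (Fin T × Fin T)).filter (fun q => q.1 < q.2 ∧ ¬ N q.1 q.2)).card := by
  set m := ((univ : Finset (Fin T × Fin T)).filter (fun q => q.1 < q.2 ∧ ¬ N q.1 q.2)).card with hm
  have h1 := turan (fun i j : Fin T => i ≠ j ∧ N i j) (fun i j h => ⟨h.1.symm, hs _ _ h.2⟩)
    (fun i h => h.1 rfl) (fun q hq => h4 q (by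
      intro g g' hgg
      by_contra hne
      exact (hq g g' hne).1 hgg) (fun g g' hgg => (hq g g' hgg).2))
  rw [Fintype.card_fin] at h1
  have h2 : cnt (fun i j : Fin T => ¬ (i ≠ j ∧ N i j)) ≤ T + 2 * m := by
    refine (cnt_le ((univ.image (fun i : Fin T => (i, i))) ∪
      (((univ : Finset (Fin T × Fin T)).filter (fun q => q.1 < q.2 ∧ ¬ N q.1 q.2)) ∪
        (((univ : Finset (Fin T × Fin T)).filter (fun q => q.1 < q.2 ∧ ¬ N q.1 q.2)).image Prod.swap))) ?_).trans ?_
    · intro q hq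
      rw [mem_union, mem_union, mem_image, mem_filter, mem_image]
      rcases lt_trichotomy q.1 q.2 with h | h | h
      · right; left
        exact ⟨mem_univ _, h, fun h' => hq ⟨h.ne, h'⟩⟩
      · left
        exact ⟨q.1, mem_univ _, Prod.ext rfl h⟩
      · right; right
        refine ⟨(q.2, q.1), mem_filter.2 ⟨mem_univ _, h, fun h' => hq ⟨h.ne', hs _ _ h'⟩⟩, rfl⟩
    · refine (card_union_le _ _).trans ?_
      have h3 : (univ.image (fun i : Fin T => (i, i))).card ≤ T := by
        refine card_image_le.trans ?_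
        rw [card_univ, Fintype.card_fin]
      have h4 := card_union_le ((univ : Finset (Fin T × Fin T)).filter (fun q => q.1 < q.2 ∧ ¬ N q.1 q.2))
        (((univ : Finset (Fin T × Fin T)).filter (fun q => q.1 < q.2 ∧ ¬ N q.1 q.2)).image Prod.swap)
      have h5 : (((univ : Finset (Fin T × Fin T)).filter (fun q => q.1 < q.2 ∧ ¬ N q.1 q.2)).image
        Prod.swap).card ≤ m := card_image_le
      omega
  have h3 : T ^ 2 ≤ 3 * (T + 2 * m) := h1.trans (Nat.mul_le_mul_left _ h2)
  unfold R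
  rcases Nat.lt_or_ge T 3 with hT | hT
  · have : T * (T - 3) = 0 := by
      rw [Nat.sub_eq_zero_of_le hT.le, Nat.mul_zero]
    rw [this]
    norm_num
  · obtain ⟨t, rfl⟩ : ∃ t, T = t + 3 := ⟨T - 3, by omega⟩
    have h5 : t + 3 - 3 = t := by omega
    rw [h5]
    have h6 : (t + 3) ^ 2 = (t + 3) * t + 3 * (t + 3) := by ring
    rw [h6] at h3
    omega

open Classical in
/-- **the combinatorial theorem for `T` copies** -/
theorem comb (T K : ℕ) (hT : 4 ≤ T) (ε : ℝ) (hε : 0 < ε) : ∃ n₀ : ℕ, ∀ (α : Type) (V : Finset α)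
    (N : Fin T × α → Fin T × α → Prop), n₀ ≤ V.card → (∀ p q, N p q → N q p) →
    (∀ (s : Fin 4 → Fin T), Function.Injective s → ∀ (A : Fin 4 → Fin K → α), (∀ g i, A g i ∈ V) →
      (∀ g, Function.Injective (A g)) → ¬ ∀ g g', g ≠ g' → ∀ i i', N (s g, A g i) (s g', A g' i')) →
    (R T : ℝ) - ε ≤ ∑ q ∈ (univ : Finset (Fin T × Fin T)).filter (fun q => q.1 < q.2),
      (ec V (fun u v => ¬ N (q.1, u) (q.2, v)) : ℝ) / (V.card : ℝ) ^ 2 := by
  have hT0 : (0 : ℝ) < T := by exact_mod_cast (by omega : 0 < T)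
  have hR0 : (0 : ℝ) ≤ R T := Nat.cast_nonneg _
  obtain ⟨ρ, hρ⟩ : ∃ ρ : ℝ, ρ = ε / (((R T : ℝ) + 1) * (T : ℝ) ^ 4) := ⟨_, rfl⟩
  have hρ0 : 0 < ρ := by rw [hρ]; positivity
  obtain ⟨N0, hN0⟩ := Pool.Agent.H362R2.CM.box_lemma 4 K ρ hρ0
  refine ⟨max N0 1, fun α V N hV hsym hbox => ?_⟩
  have hVN : N0 ≤ V.card := (le_max_left _ _).trans hV
  have hV1 : 1 ≤ V.card := (le_max_right _ _).trans hV
  set n : ℝ := (V.card : ℝ) with hn
  have hn0 : 0 < n := by rw [hn]; exact_mod_cast hV1
  set B : (Fin 4 → Fin T) → Finset (Fin 4 → α) := fun s => (Fintype.piFinset (fun _ : Fin 4 => V)).filter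
      (fun y => ∀ g g', g ≠ g' → N (s g, y g) (s g', y g')) with hBd
  have hB : ∀ s : Fin 4 → Fin T, Function.Injective s → ((B s).card : ℝ) ≤ ρ * n ^ 4 := by
    intro s hs
    by_contra hcon
    push Not at hcon
    obtain ⟨A, hA1, hA2⟩ := hN0 α (fun _ => V) (fun _ => hVN) (B s) (filter_subset _ _) (by
      rw [prod_const, card_univ, Fintype.card_fin]
      exact hcon.le)
    refine hbox s hs A (fun g i => ?_) hA1 ?_
    · have h1 := (mem_filter.1 (hA2 (fun _ => i))).1
      rw [Fintype.mem_piFinset] at h1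
      exact h1 g
    · intro g g' hgg i i'
      have h1 := (mem_filter.1 (hA2 (Function.update (fun _ => i) g' i'))).2 g g' hgg
      simp only [Function.update_self, Function.update_of_ne hgg] at h1
      exact h1
  set Φ := Fintype.piFinset (fun _ : Fin T => V) with hΦ
  have hΦc : (Φ.card : ℝ) = n ^ T := by
    rw [hΦ, Fintype.card_piFinset, prod_const, card_univ, Fintype.card_fin, hn]
    push_cast; rfl
  set bad : (Fin T → α) → Prop := fun z => ∃ q : Fin 4 → Fin T, Function.Injective q ∧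
    ∀ g g', g ≠ g' → N (q g, z (q g)) (q g', z (q g')) with hbad
  have hbadc : ((Φ.filter bad).card : ℝ) ≤ (T : ℝ) ^ 4 * ρ * n ^ T := by
    have h1 : Φ.filter bad ⊆ (univ : Finset (Fin 4 → Fin T)).biUnion (fun w =>
        if Function.Injective w then Φ.filter (fun z => (fun j => z (w j)) ∈ B w) else ∅) := by
      intro z hz
      obtain ⟨hzV, q, hqi, hq⟩ := mem_filter.1 hz
      rw [mem_biUnion]
      refine ⟨q, mem_univ _, ?_⟩
      rw [if_pos hqi, mem_filter]
      refine ⟨hzV, ?_⟩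
      rw [hBd, mem_filter, Fintype.mem_piFinset]
      rw [hΦ, Fintype.mem_piFinset] at hzV
      exact ⟨fun g => hzV _, hq⟩
    have h2 : ∀ w ∈ (univ : Finset (Fin 4 → Fin T)),
        (((if Function.Injective w then Φ.filter (fun z => (fun j => z (w j)) ∈ B w) else ∅ :
          Finset (Fin T → α)).card : ℕ) : ℝ) ≤ ρ * n ^ T := by
      intro w _
      have hpow : n ^ T = n ^ 4 * n ^ (T - 4) := by
        rw [← pow_add]; congr 1; omega
      split_ifs with h
      · have h3 := card_pull_le V w h (B w)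
        rw [Fintype.card_fin, Fintype.card_fin] at h3
        have h4 : ((Φ.filter (fun z => (fun j => z (w j)) ∈ B w)).card : ℝ) ≤
            ((B w).card : ℝ) * n ^ (T - 4) := by
          rw [hn]; exact_mod_cast h3
        refine h4.trans ?_
        rw [hpow, ← mul_assoc]
        exact mul_le_mul_of_nonneg_right (hB w h) (by positivity)
      · rw [card_empty]
        push_cast
        positivity
    have h3 := (Nat.cast_le (α := ℝ)).2 ((card_le_card h1).trans card_biUnion_le)
    push_cast at h3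
    refine h3.trans ((sum_le_sum h2).trans ?_)
    rw [sum_const, card_univ, Fintype.card_fun, Fintype.card_fin, Fintype.card_fin, nsmul_eq_mul]
    push_cast
    rw [mul_assoc]
  have hgood : (1 - (T : ℝ) ^ 4 * ρ) * n ^ T ≤ ((Φ.filter (fun z => ¬ bad z)).card : ℝ) := by
    have h1 := Finset.card_filter_add_card_filter_not (s := Φ) bad
    have h2 : ((Φ.filter bad).card : ℝ) + ((Φ.filter (fun z => ¬ bad z)).card : ℝ) = n ^ T := by
      rw [← hΦc]; exact_mod_cast h1
    linarith
  set P := (univ : Finset (Fin T × Fin T)).filter (fun q => q.1 < q.2) with hP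
  have hsum : ∑ z ∈ Φ, (∑ q ∈ P, (if ¬ N (q.1, z q.1) (q.2, z q.2) then 1 else 0) : ℕ) ≤
      ∑ q ∈ P, ec V (fun u v => ¬ N (q.1, u) (q.2, v)) * V.card ^ (T - 2) := by
    rw [Finset.sum_comm]
    refine sum_le_sum fun q hq => ?_
    have hq12 : q.1 ≠ q.2 := (mem_filter.1 hq).2.ne
    rw [← card_filter]
    have he : Function.Injective (![q.1, q.2] : Fin 2 → Fin T) := by
      intro a b hab
      fin_cases a <;> fin_cases b
      · rfl
      · exact absurd hab hq12
      · exact absurd hab.symm hq12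
      · rfl
    have h3 := card_pull_le V (![q.1, q.2] : Fin 2 → Fin T) he
      ((Fintype.piFinset (fun _ : Fin 2 => V)).filter (fun y => ¬ N (q.1, y 0) (q.2, y 1)))
    rw [Fintype.card_fin, Fintype.card_fin] at h3
    refine le_trans (card_le_card ?_) (h3.trans (Nat.mul_le_mul_right _ ?_))
    · intro z hz
      rw [mem_filter] at hz ⊢
      refine ⟨hz.1, mem_filter.2 ⟨?_, hz.2⟩⟩
      rw [hΦ, Fintype.mem_piFinset] at hz
      rw [Fintype.mem_piFinset]
      intro j
      exact hz.1 _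
    · unfold ec
      refine card_le_card_of_injOn (fun y => (y 0, y 1)) ?_ ?_
      · intro y hy
        rw [mem_coe, mem_filter, Fintype.mem_piFinset] at hy
        simp only [coe_filter, mem_product, Set.mem_ofPred_eq]
        exact ⟨⟨hy.1 0, hy.1 1⟩, hy.2⟩
      · intro y _ y' _ hyy
        simp only [Prod.mk.injEq] at hyy
        funext j
        fin_cases j
        · exact hyy.1
        · exact hyy.2
  have hlow : ((Φ.filter (fun z => ¬ bad z)).card : ℕ) * R T ≤
      ∑ z ∈ Φ, (∑ q ∈ P, (if ¬ N (q.1, z q.1) (q.2, z q.2) then 1 else 0) : ℕ) := by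
    rw [← smul_eq_mul]
    refine (Finset.card_nsmul_le_sum (Φ.filter (fun z => ¬ bad z))
      (fun z => (∑ q ∈ P, (if ¬ N (q.1, z q.1) (q.2, z q.2) then 1 else 0) : ℕ)) (R T) ?_).trans ?_
    · intro z hz
      have hz2 := (mem_filter.1 hz).2
      have h1 := finite_pairs (fun i j : Fin T => N (i, z i) (j, z j)) (fun i j h => hsym _ _ h)
        (fun q hqi hq => hz2 ⟨q, hqi, hq⟩)
      refine h1.trans (le_of_eq ?_)
      rw [hP, ← card_filter, filter_filter]
    · exact Finset.sum_le_sum_of_subset (filter_subset _ _)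
  have hfin : (R T : ℝ) * ((1 - (T : ℝ) ^ 4 * ρ) * n ^ T) ≤
      (∑ q ∈ P, (ec V (fun u v => ¬ N (q.1, u) (q.2, v)) : ℝ)) * n ^ (T - 2) := by
    have h1 := (Nat.cast_le (α := ℝ)).2 (hlow.trans hsum)
    push_cast at h1
    rw [← hn, ← sum_mul] at h1
    calc (R T : ℝ) * ((1 - (T : ℝ) ^ 4 * ρ) * n ^ T) ≤
        (R T : ℝ) * ((Φ.filter (fun z => ¬ bad z)).card : ℝ) := mul_le_mul_of_nonneg_left hgood hR0
      _ = ((Φ.filter (fun z => ¬ bad z)).card : ℝ) * (R T : ℝ) := mul_comm _ _
      _ ≤ _ := h1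
  have hnT : n ^ T = n ^ 2 * n ^ (T - 2) := by
    rw [← pow_add]; congr 1; omega
  rw [← sum_div, le_div_iff₀ (by positivity)]
  have h5 : ((R T : ℝ) * (1 - (T : ℝ) ^ 4 * ρ) * n ^ 2) * n ^ (T - 2) ≤
      (∑ q ∈ P, (ec V (fun u v => ¬ N (q.1, u) (q.2, v)) : ℝ)) * n ^ (T - 2) := by
    rw [hnT] at hfin
    calc ((R T : ℝ) * (1 - (T : ℝ) ^ 4 * ρ) * n ^ 2) * n ^ (T - 2) =
        (R T : ℝ) * ((1 - (T : ℝ) ^ 4 * ρ) * (n ^ 2 * n ^ (T - 2))) := by ring
      _ ≤ _ := hfin
  have h6 := le_of_mul_le_mul_right h5 (by positivity)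
  refine le_trans ?_ h6
  apply mul_le_mul_of_nonneg_right _ (by positivity)
  have h7 : (T : ℝ) ^ 4 * ρ = ε / ((R T : ℝ) + 1) := by
    rw [hρ]; field_simp
  rw [h7]
  have h8 : (R T : ℝ) * (ε / ((R T : ℝ) + 1)) ≤ ε := by
    rw [mul_div_assoc', div_le_iff₀ (by positivity)]
    nlinarith
  linarith

end Pool.Agent.H35_SL
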