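import Mathlib
import Pool.Agent.H35_SD.Comb
import Pool.Agent.H35_SL.Comb
import Pool.Agent.Y827.RO.NarF

set_option autoImplicit false

/-!
Linear equations in two primes at every scale: the inequalities for the proportions.
-/

namespace Pool.Agent.H35_SL

open Finset Filter
open Pool.Agent.Y827.GS (Adf cntN cntN_anti)
open Pool.Agent.H35_SD (ec)

/-- the number of the primes `p ≤ X` for which there is a prime `q ≤ X` with `a p - b q = c` -/
noncomputable def count (a b : ℕ) (c : ℤ) (X : ℕ) : ℕ :=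
  {p : ℕ | p ≤ X ∧ p.Prime ∧ ∃ q : ℕ, q ≤ X ∧ q.Prime ∧ (a : ℤ) * p - b * q = c}.ncard

/-- the hypotheses of the question -/
def Adm (a b : ℕ) (c : ℤ) : Prop :=
  1 ≤ a ∧ 1 ≤ b ∧ c ≠ 0 ∧ Nat.Coprime a b ∧ IsCoprime (a : ℤ) c ∧ IsCoprime (b : ℤ) c ∧ ¬ (Odd a ∧ Odd b ∧ Odd c)

theorem cnt_le_count {g a b u v N X : ℕ} (hg : 1 ≤ g) (hb : 1 ≤ b) (h1 : g * b * N + u ≤ X)
    (h2 : g * a * N + v ≤ X) :
    cntN {(((g * b : ℕ) : ℤ), (u : ℤ)), (((g * a : ℕ) : ℤ), (v : ℤ))} N ≤ count a b ((a : ℤ) * u - b * v) X := by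
  unfold cntN count
  rw [← Set.ncard_coe_finset]
  have hfin : {p : ℕ | p ≤ X ∧ p.Prime ∧ ∃ q : ℕ, q ≤ X ∧ q.Prime ∧
      (a : ℤ) * p - b * q = (a : ℤ) * u - b * v}.Finite :=
    (Set.finite_Iic X).subset fun p hp => hp.1
  have hgb : 0 < g * b := Nat.mul_pos hg hb
  refine Set.ncard_le_ncard_of_injOn (fun n => g * b * n + u) ?_ ?_ hfin
  · intro n hn
    rw [mem_coe, mem_filter, mem_Icc] at hn
    obtain ⟨⟨hn1, hn2⟩, hn3⟩ := hn
    have h3 := hn3 _ (mem_insert_self _ _)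
    have h4 := hn3 _ (mem_insert_of_mem (mem_singleton_self _))
    simp only at h3 h4
    have e1 : (((g * b : ℕ) : ℤ) * (n : ℤ) + (u : ℤ)).toNat = g * b * n + u := by
      have : ((g * b : ℕ) : ℤ) * (n : ℤ) + (u : ℤ) = ((g * b * n + u : ℕ) : ℤ) := by push_cast; ring
      rw [this, Int.toNat_natCast]
    have e2 : (((g * a : ℕ) : ℤ) * (n : ℤ) + (v : ℤ)).toNat = g * a * n + v := by
      have : ((g * a : ℕ) : ℤ) * (n : ℤ) + (v : ℤ) = ((g * a * n + v : ℕ) : ℤ) := by push_cast; ring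
      rw [this, Int.toNat_natCast]
    rw [e1] at h3
    rw [e2] at h4
    refine ⟨?_, h3, g * a * n + v, ?_, h4, ?_⟩
    · show g * b * n + u ≤ X
      exact (Nat.add_le_add_right (Nat.mul_le_mul_left _ hn2) _).trans h1
    · exact (Nat.add_le_add_right (Nat.mul_le_mul_left _ hn2) _).trans h2
    · show (a : ℤ) * ((g * b * n + u : ℕ) : ℤ) - b * ((g * a * n + v : ℕ) : ℤ) = (a : ℤ) * u - b * v
      push_cast
      ring
  · intro n _ m _ h
    simp only at h
    have h3 : g * b * n = g * b * m := by omega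
    exact Nat.eq_of_mul_eq_mul_left hgb h3

theorem adm {a b u v W : ℕ} (ha : 1 ≤ a) (hb : 1 ≤ b) (hab : Nat.Coprime a b) (hne : a ≠ b)
    (haW : a ∣ W) (hbW : b ∣ W) (h2W : 2 ∣ W) (hu : u ≡ 1 [MOD W]) (hv : v ≡ 1 [MOD W]) :
    Adm a b ((a : ℤ) * u - b * v) := by
  have cop : ∀ {d w : ℕ}, d ∣ W → w ≡ 1 [MOD W] → Nat.Coprime d w := by
    intro d w hd hw
    have h1 : w ≡ 1 [MOD d] := hw.of_dvd hd
    have h2 : Nat.gcd w d = Nat.gcd 1 d := h1.gcd_eq
    rw [Nat.gcd_one_left] at h2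
    rw [Nat.coprime_comm]
    exact h2
  have hav := cop haW hv
  have hbu := cop hbW hu
  have h2u := cop h2W hu
  have h2v := cop h2W hv
  refine ⟨ha, hb, ?_, hab, ?_, ?_, ?_⟩
  · intro h
    have h1 : a * u = b * v := by
      have : (a : ℤ) * u = b * v := by linarith
      exact_mod_cast this
    have h2 : a ∣ 1 := by
      have h3 : a ∣ b * v := ⟨u, h1.symm⟩
      have h4 : a ∣ v := hab.dvd_of_dvd_mul_left h3
      have h5 := Nat.dvd_gcd (dvd_refl a) h4
      rwa [hav] at h5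
    have h3 : b ∣ 1 := by
      have h3 : b ∣ a * u := ⟨v, h1⟩
      have h4 : b ∣ u := hab.symm.dvd_of_dvd_mul_left h3
      have h5 := Nat.dvd_gcd (dvd_refl b) h4
      rwa [hbu] at h5
    rw [Nat.dvd_one] at h2 h3
    exact hne (h2.trans h3.symm)
  · have h1 : IsCoprime (a : ℤ) ((b : ℤ) * v) :=
      (Nat.isCoprime_iff_coprime.2 hab).mul_right (Nat.isCoprime_iff_coprime.2 hav)
    have h2 := h1.neg_right.add_mul_left_right (u : ℤ)
    have e : (a : ℤ) * u - b * v = -((b : ℤ) * v) + a * u := by ring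
    rw [e]
    exact h2
  · have h1 : IsCoprime (b : ℤ) ((a : ℤ) * u) :=
      (Nat.isCoprime_iff_coprime.2 hab.symm).mul_right (Nat.isCoprime_iff_coprime.2 hbu)
    have h2 := h1.add_mul_left_right (-(v : ℤ))
    have e : (a : ℤ) * u - b * v = (a : ℤ) * u + b * (-(v : ℤ)) := by ring
    rw [e]
    exact h2
  · rintro ⟨h1, h2, h3⟩
    have hu2 : Odd u := Nat.coprime_two_left.1 h2u
    have hv2 : Odd v := Nat.coprime_two_left.1 h2v
    have e1 : Odd ((a : ℤ) * u) := by exact_mod_cast h1.mul hu2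
    have e2 : Odd ((b : ℤ) * v) := by exact_mod_cast h2.mul hv2
    exact (Int.not_even_iff_odd.2 h3) (e1.sub_odd e2)

/-- the size of the counts -/
theorem size (C W : ℕ) (hW : 2 ≤ W) : ∀ᶠ X : ℕ in atTop, (X : ℝ) / Real.log X ^ (C + 1) ≤
    ((X / W : ℕ) : ℝ) / Real.log ((X / W : ℕ) : ℝ) ^ C := by
  have hlog := (Real.tendsto_log_atTop.comp tendsto_natCast_atTop_atTop).eventually_ge_atTop (2 * (W : ℝ))
  filter_upwards [hlog, eventually_ge_atTop (3 * W)] with X hX hX3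
  simp only [Function.comp] at hX
  have hW0 : 0 < W := by omega
  have hWr : (2 : ℝ) ≤ W := by exact_mod_cast hW
  have hN3 : 3 ≤ X / W := (Nat.le_div_iff_mul_le hW0).2 hX3
  have hN3r : (3 : ℝ) ≤ ((X / W : ℕ) : ℝ) := by exact_mod_cast hN3
  have hNX : X / W ≤ X := Nat.div_le_self _ _
  have hNXr : ((X / W : ℕ) : ℝ) ≤ X := by exact_mod_cast hNX
  have hlN : 0 < Real.log ((X / W : ℕ) : ℝ) := Real.log_pos (by linarith)
  have hlNX : Real.log ((X / W : ℕ) : ℝ) ≤ Real.log X := Real.log_le_log (by linarith) hNXr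
  have hL0 : 0 < Real.log (X : ℝ) := hlN.trans_le hlNX
  have h1 : (X : ℝ) ≤ 2 * W * ((X / W : ℕ) : ℝ) := by
    have h2 : X < W * (X / W + 1) := by
      have := Nat.lt_mul_div_succ X hW0
      simpa using this
    have h3 : X ≤ 2 * W * (X / W) := by nlinarith
    exact_mod_cast h3
  rw [div_le_div_iff₀ (by positivity) (by positivity)]
  have h4 : Real.log ((X / W : ℕ) : ℝ) ^ C ≤ Real.log (X : ℝ) ^ C := pow_le_pow_left₀ hlN.le hlNX C
  calc (X : ℝ) * Real.log ((X / W : ℕ) : ℝ) ^ C ≤ (2 * W * ((X / W : ℕ) : ℝ)) * Real.log (X : ℝ) ^ C :=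
        mul_le_mul h1 h4 (by positivity) (by positivity)
    _ = ((X / W : ℕ) : ℝ) * (2 * W * Real.log (X : ℝ) ^ C) := by ring
    _ ≤ ((X / W : ℕ) : ℝ) * (Real.log X * Real.log (X : ℝ) ^ C) := by
        apply mul_le_mul_of_nonneg_left _ (by positivity)
        exact mul_le_mul_of_nonneg_right hX (by positivity)
    _ = ((X / W : ℕ) : ℝ) * Real.log (X : ℝ) ^ (C + 1) := by ring

theorem general : ∃ K C : ℕ, ∀ (ι : Type) (_ : Fintype ι) (m : ι → ℕ), (∀ i, 1 ≤ m i) →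
    ∃ W X₀ : ℕ, 1 ≤ W ∧ ∀ X : ℕ, X₀ ≤ X → ∀ V : Finset ℕ, (∀ v ∈ V, v ≡ 1 [MOD W] ∧ W * v ≤ X) →
      ∃ N : ι × ℕ → ι × ℕ → Prop, (∀ p q, N p q → N q p) ∧
        (∀ (s : Fin 4 → ι) (A : Fin 4 → Fin K → ℕ), (∀ g i, A g i ∈ V) → (∀ g, Function.Injective (A g)) →
          ¬ ∀ g g', g ≠ g' → ∀ i i', N (s g, A g i) (s g', A g' i')) ∧
        (∀ i, ∀ u ∈ V, ∀ v ∈ V, u ≠ v → ¬ N (i, u) (i, v) →
          (X : ℝ) / Real.log X ^ C ≤ (count 1 1 ((u : ℤ) - v) X : ℝ)) ∧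
        (∀ i j, ∀ g a b : ℕ, 1 ≤ g → g * b = m i → g * a = m j → Nat.Coprime a b → a ≠ b →
          ∀ u ∈ V, ∀ v ∈ V, ¬ N (i, u) (j, v) → Adm a b ((a : ℤ) * u - b * v) ∧
            (X : ℝ) / Real.log X ^ C ≤ (count a b ((a : ℤ) * u - b * v) X : ℝ)) := by
  classical
  obtain ⟨K, hK1, hK⟩ := Pool.Agent.Y827.RO.lamRD 4
  have hK := hK (by norm_num)
  set C : ℕ := 4 * K + 2 with hC
  refine ⟨K, C + 1, fun ι _ m hm => ?_⟩
  obtain ⟨A, hA⟩ : ∃ A : ℕ, A = ∏ i, m i := ⟨_, rfl⟩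
  have hmA : ∀ i, m i ∣ A := fun i => by rw [hA]; exact dvd_prod_of_mem _ (mem_univ i)
  have hA0 : 0 < A := by rw [hA]; exact prod_pos fun i _ => hm i
  obtain ⟨W, hWd⟩ : ∃ W : ℕ, W = 2 * ((4 * K).factorial * A) := ⟨_, rfl⟩
  have hf0 : 0 < (4 * K).factorial := Nat.factorial_pos _
  have hAW : A ∣ W := by rw [hWd]; exact Dvd.intro_left (2 * (4 * K).factorial) (by ring)
  have hfW : (4 * K).factorial ∣ W := by rw [hWd]; exact Dvd.intro_left (2 * A) (by ring)
  have h2W : 2 ∣ W := by rw [hWd]; exact dvd_mul_right _ _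
  have hW0 : 0 < W := by rw [hWd]; positivity
  have hW2 : 2 ≤ W := Nat.le_of_dvd hW0 h2W
  have h2A : 2 * A ≤ W := by
    rw [hWd]
    exact Nat.mul_le_mul_left _ (Nat.le_mul_of_pos_left _ hf0)
  have hten : Tendsto (fun X : ℕ => X / W) atTop atTop := Nat.tendsto_div_const_atTop hW0.ne'
  obtain ⟨X₀, hX₀⟩ := eventually_atTop.1 ((hten.eventually (hK A)).and (size C W hW2))
  refine ⟨W, X₀, hW0, fun X hX V hV => ?_⟩
  obtain ⟨hKX, hsize⟩ := hX₀ X hX
  obtain ⟨N, hN⟩ : ∃ N : ℕ, N = X / W := ⟨_, rfl⟩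
  rw [← hN] at hKX hsize
  have hWN : W * N ≤ X := by rw [hN]; exact Nat.mul_div_le X W
  have hvN : ∀ v ∈ V, v ≤ N := by
    intro v hv
    rw [hN, Nat.le_div_iff_mul_le hW0, Nat.mul_comm]
    exact (hV v hv).2
  have hle : ∀ i, ∀ v ∈ V, m i * N + v ≤ X := by
    intro i v hv
    have h1 : m i ≤ A := Nat.le_of_dvd hA0 (hmA i)
    have h2 := hvN v hv
    have h3 : m i * N ≤ A * N := Nat.mul_le_mul_right _ h1
    have h4 : 1 * N ≤ A * N := Nat.mul_le_mul_right _ hA0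
    have h5 : 2 * A * N ≤ W * N := Nat.mul_le_mul_right _ h2A
    nlinarith
  obtain ⟨F, hF⟩ : ∃ F : ι × ℕ → ℤ × ℤ, F = fun p => ((m p.1 : ℤ), (p.2 : ℤ)) := ⟨_, rfl⟩
  have hFinj : ∀ i u v, F (i, u) = F (i, v) → u = v := by
    intro i u v h
    rw [hF] at h
    simp only [Prod.mk.injEq, Nat.cast_inj] at h
    exact h.2
  have hFadf : ∀ i, ∀ v ∈ V, Adf A N (F (i, v)) := by
    intro i v hv
    have h1 : m i ≤ A := Nat.le_of_dvd hA0 (hmA i)
    have h2 := hvN v hv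
    have h3 := hm i
    rw [hF]
    refine ⟨?_, ?_, ?_, ?_, ?_⟩
    · show (m i : ℤ) ≠ 0
      exact_mod_cast (by omega : m i ≠ 0)
    · show |(m i : ℤ)| ≤ A
      rw [abs_of_nonneg (by positivity)]
      exact_mod_cast h1
    · show |(v : ℤ)| ≤ N
      rw [abs_of_nonneg (by positivity)]
      exact_mod_cast h2
    · show IsCoprime (m i : ℤ) (v : ℤ)
      rw [Nat.isCoprime_iff_coprime]
      have h4 : v ≡ 1 [MOD m i] := (hV v hv).1.of_dvd ((hmA i).trans hAW)
      have h5 : Nat.gcd v (m i) = Nat.gcd 1 (m i) := h4.gcd_eq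
      rw [Nat.gcd_one_left] at h5
      rw [Nat.coprime_comm]
      exact h5
    · intro t ht1 ht2
      show (N : ℝ) / 24 ≤ ((m i : ℤ) : ℝ) * t + ((v : ℤ) : ℝ)
      push_cast
      have h4 : (1 : ℝ) ≤ m i := by exact_mod_cast h3
      have h5 : (0 : ℝ) ≤ v := Nat.cast_nonneg v
      have h6 : (0 : ℝ) ≤ N := Nat.cast_nonneg N
      have h7 : 0 ≤ t := by linarith
      have h8 : t ≤ m i * t := by nlinarith
      linarith
  obtain ⟨Rr, hR⟩ : ∃ Rr : ℤ × ℤ → ℤ × ℤ → Prop,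
      Rr = fun f g => (N : ℝ) / Real.log N ^ C ≤ (cntN {f, g} N : ℝ) := ⟨_, rfl⟩
  refine ⟨fun p q => F p ≠ F q ∧ ¬ Rr (F p) (F q), ?_, ?_, ?_, ?_⟩
  · rintro p q ⟨h1, h2⟩
    refine ⟨fun h => h1 h.symm, ?_⟩
    rw [hR] at h2 ⊢
    simp only at h2 ⊢
    rw [Finset.pair_comm]
    exact h2
  · intro s B hBV hBinj hcon
    obtain ⟨S, c, hS, hcnt⟩ := hKX (fun g i => F (s g, B g i)) (by
      rintro ⟨g, i⟩ ⟨g', i'⟩ h
      simp only at h
      by_cases hgg : g = g'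
      · subst hgg
        rw [hBinj g (hFinj _ _ _ h)]
      · exact absurd h (hcon g g' hgg i i').1) (fun g i => hFadf _ _ (hBV g i)) (by
      intro p hp hpK
      refine ⟨0, fun g i => ?_⟩
      rw [hF]
      simp only [mul_zero, zero_add]
      intro h
      have h1 : p ∣ B g i := by exact_mod_cast h
      have h2 : p ∣ W := ((Nat.Prime.dvd_factorial hp).2 hpK).trans hfW
      have h3 : B g i ≡ 1 [MOD p] := (hV _ (hBV g i)).1.of_dvd h2
      have h4 : Nat.gcd (B g i) p = Nat.gcd 1 p := h3.gcd_eq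
      rw [Nat.gcd_one_left, Nat.gcd_eq_right h1] at h4
      exact hp.one_lt.ne' h4)
    have hS2 : 1 < S.card := by
      by_contra h
      have h1 : (S.card : ℝ) ≤ 1 := by exact_mod_cast (not_lt.1 h)
      push_cast at hS
      linarith
    obtain ⟨g, hg, g', hg', hgg⟩ := one_lt_card.1 hS2
    apply (hcon g g' hgg (c g) (c g')).2
    rw [hR]
    refine hcnt.trans ?_
    have h1 : ({F (s g, B g (c g)), F (s g', B g' (c g'))} : Finset (ℤ × ℤ)) ⊆
        S.image (fun g => F (s g, B g (c g))) := by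
      intro f hf
      rw [mem_insert, mem_singleton] at hf
      rcases hf with rfl | rfl
      · exact mem_image.2 ⟨g, hg, rfl⟩
      · exact mem_image.2 ⟨g', hg', rfl⟩
    exact_mod_cast cntN_anti h1 N
  · intro i u hu v hv hne hNN
    have h1 : Rr (F (i, u)) (F (i, v)) := by
      by_contra h
      exact hNN ⟨fun h' => hne (hFinj _ _ _ h'), h⟩
    rw [hR, hF] at h1
    refine hsize.trans (h1.trans (Nat.cast_le.2 ?_))
    have h2 := cnt_le_count (g := m i) (a := 1) (b := 1) (u := u) (v := v) (N := N) (X := X) (hm i) le_rfl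
      (by rw [mul_one]; exact hle i u hu) (by rw [mul_one]; exact hle i v hv)
    simp only [mul_one, Nat.cast_one, one_mul] at h2
    exact h2
  · intro i j g a b hg hgb hga hab hne u hu v hv hNN
    have ha : 1 ≤ a := by
      rcases Nat.eq_zero_or_pos a with h | h
      · have := hm j
        rw [← hga, h, mul_zero] at this
        exact absurd this (by norm_num)
      · exact h
    have hb : 1 ≤ b := by
      rcases Nat.eq_zero_or_pos b with h | h
      · have := hm i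
        rw [← hgb, h, mul_zero] at this
        exact absurd this (by norm_num)
      · exact h
    refine ⟨adm ha hb hab hne ?_ ?_ h2W (hV u hu).1 (hV v hv).1, ?_⟩
    · exact ((Dvd.intro_left g hga).trans (hmA j)).trans hAW
    · exact ((Dvd.intro_left g hgb).trans (hmA i)).trans hAW
    have hij : F (i, u) ≠ F (j, v) := by
      rw [hF]
      intro h
      simp only [Prod.mk.injEq, Nat.cast_inj] at h
      apply hne
      have h1 := h.1
      rw [← hgb, ← hga] at h1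
      exact (Nat.eq_of_mul_eq_mul_left hg h1).symm
    have h1 : Rr (F (i, u)) (F (j, v)) := by
      by_contra h
      exact hNN ⟨hij, h⟩
    rw [hR, hF] at h1
    refine hsize.trans (h1.trans (Nat.cast_le.2 ?_))
    have h2 := cnt_le_count (g := g) (a := a) (b := b) (u := u) (v := v) (N := N) (X := X) hg hb
      (by rw [hgb]; exact hle i u hu) (by rw [hga]; exact hle j v hv)
    rw [hgb, hga] at h2
    exact h2

end Pool.Agent.H35_SL
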