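import Mathlib
import Pool.Agent.H35_SD.Comb
import Pool.Agent.H35_SL.Comb
import Pool.Agent.H35_SL.Ar
import Pool.Agent.Y827.RO.NarF

set_option autoImplicit false

/-!
Linear equations in two primes at every scale: admissible systems of linear forms with arbitrary slopes.
-/

namespace Pool.Agent.H35_SL

open Finset Filter
open Pool.Agent.Y827.GS (Adf cntN cntN_anti)
open Pool.Agent.H35_SD (ec)

theorem cnt_le_count2 {g a b : ℕ} {x y c : ℤ} {N X : ℕ} (hg : 1 ≤ g) (hb : 1 ≤ b)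
    (hx : ((g * b : ℕ) : ℤ) * N + x ≤ X) (hy : ((g * a : ℕ) : ℤ) * N + y ≤ X) (hc : a * x - b * y = c) :
    cntN {(((g * b : ℕ) : ℤ), x), (((g * a : ℕ) : ℤ), y)} N ≤ count a b c X := by
  unfold cntN count
  rw [← Set.ncard_coe_finset]
  have hfin : {p : ℕ | p ≤ X ∧ p.Prime ∧ ∃ q : ℕ, q ≤ X ∧ q.Prime ∧ (a : ℤ) * p - b * q = c}.Finite :=
    (Set.finite_Iic X).subset fun p hp => hp.1
  have hpos : ∀ n ∈ ((Icc 1 N).filter (fun n : ℕ => ∀ f ∈ ({(((g * b : ℕ) : ℤ), x), (((g * a : ℕ) : ℤ), y)} :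
      Finset (ℤ × ℤ)), (f.1 * (n : ℤ) + f.2).toNat.Prime)),
      ((((g * b : ℕ) : ℤ) * n + x).toNat.Prime ∧ (((g * a : ℕ) : ℤ) * n + y).toNat.Prime) ∧ n ≤ N := by
    intro n hn
    rw [mem_filter, mem_Icc] at hn
    obtain ⟨⟨hn1, hn2⟩, hn3⟩ := hn
    have h1 := hn3 _ (mem_insert_self _ _)
    have h2 := hn3 _ (mem_insert_of_mem (mem_singleton_self _))
    exact ⟨⟨h1, h2⟩, hn2⟩
  refine Set.ncard_le_ncard_of_injOn (fun n => (((g * b : ℕ) : ℤ) * n + x).toNat) ?_ ?_ hfin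
  · intro n hn
    obtain ⟨⟨h1, h2⟩, h5⟩ := hpos n (mem_coe.1 hn)
    have h3 := h1.pos
    have h4 := h2.pos
    have e1 : (((((g * b : ℕ) : ℤ) * n + x).toNat : ℕ) : ℤ) = ((g * b : ℕ) : ℤ) * n + x :=
      Int.toNat_of_nonneg (by omega)
    have e2 : (((((g * a : ℕ) : ℤ) * n + y).toNat : ℕ) : ℤ) = ((g * a : ℕ) : ℤ) * n + y :=
      Int.toNat_of_nonneg (by omega)
    have h6 : ((g * b : ℕ) : ℤ) * n ≤ ((g * b : ℕ) : ℤ) * N :=
      mul_le_mul_of_nonneg_left (by exact_mod_cast h5) (by positivity)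
    have h7 : ((g * a : ℕ) : ℤ) * n ≤ ((g * a : ℕ) : ℤ) * N :=
      mul_le_mul_of_nonneg_left (by exact_mod_cast h5) (by positivity)
    refine ⟨?_, h1, (((g * a : ℕ) : ℤ) * n + y).toNat, ?_, h2, ?_⟩
    · show (((g * b : ℕ) : ℤ) * n + x).toNat ≤ X
      omega
    · omega
    · show (a : ℤ) * (((((g * b : ℕ) : ℤ) * n + x).toNat : ℕ) : ℤ) -
        b * (((((g * a : ℕ) : ℤ) * n + y).toNat : ℕ) : ℤ) = c
      rw [e1, e2, ← hc]
      push_cast
      ring
  · intro n hn k hk h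
    have h3 := (hpos n (mem_coe.1 hn)).1.1.pos
    have h4 := (hpos k (mem_coe.1 hk)).1.1.pos
    simp only at h
    have h5 : ((g * b : ℕ) : ℤ) * n + x = ((g * b : ℕ) : ℤ) * k + x := by omega
    have h6 : ((g * b : ℕ) : ℤ) * n = ((g * b : ℕ) : ℤ) * k := by linarith
    have hgb : 0 < g * b := Nat.mul_pos hg hb
    have hm' : ((g * b : ℕ) : ℤ) ≠ 0 := by exact_mod_cast hgb.ne'
    exact_mod_cast mul_left_cancel₀ hm' h6

theorem general4 : ∃ K C : ℕ, ∀ (ι : Type) (_ : Fintype ι) (m : ι → ℕ), (∀ i, 1 ≤ m i) →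
    ∃ W X₀ : ℕ, 1 ≤ W ∧ ∀ r : ι → ℤ, (∀ p : ℕ, p.Prime → ∃ n : ℤ, ∀ i, ¬ (p : ℤ) ∣ m i * n + r i) →
    ∀ X : ℕ, X₀ ≤ X → (∀ i, 100 * (W * |r i|) ≤ X) → ∀ V : Finset ℕ, (∀ v ∈ V, 4 * (W * (W * v)) ≤ X) →
      ∃ N : ι × ℕ → ι × ℕ → Prop, (∀ p q, N p q → N q p) ∧
        (∀ (s : Fin 4 → ι) (A : Fin 4 → Fin K → ℕ), (∀ g i, A g i ∈ V) → (∀ g, Function.Injective (A g)) →
          ¬ ∀ g g', g ≠ g' → ∀ i i', N (s g, A g i) (s g', A g' i')) ∧
        (∀ i j, ∀ g a b : ℕ, 1 ≤ g → g * b = m i → g * a = m j → Nat.Coprime a b → a ≠ b →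
          ∀ u ∈ V, ∀ v ∈ V, ¬ N (i, u) (j, v) →
          Adm a b (a * r i - b * r j + W * ((a : ℤ) * u - b * v)) ∧
          (X : ℝ) / Real.log X ^ C ≤ (count a b (a * r i - b * r j + W * ((a : ℤ) * u - b * v)) X : ℝ)) := by
  classical
  obtain ⟨K, hK1, hK⟩ := Pool.Agent.Y827.RO.lamRD 4
  have hK := hK (by norm_num)
  set C : ℕ := 4 * K + 2 with hC
  refine ⟨K, C + 1, fun ι _ m hm => ?_⟩
  obtain ⟨A, hA⟩ : ∃ A : ℕ, A = ∏ i, m i := ⟨_, rfl⟩
  have hmA : ∀ i, m i ∣ A := fun i => by rw [hA]; exact dvd_prod_of_mem _ (mem_univ i)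
  have hA0 : 0 < A := by rw [hA]; exact prod_pos fun i _ => hm i
  obtain ⟨W, hWd⟩ : ∃ W : ℕ, W = 2 * ((4 * K).factorial * A) := ⟨_, rfl⟩
  have hf0 : 0 < (4 * K).factorial := Nat.factorial_pos _
  have hAW : A ∣ W := by rw [hWd]; exact Dvd.intro_left (2 * (4 * K).factorial) (by ring)
  have hfW : (4 * K).factorial ∣ W := by rw [hWd]; exact Dvd.intro_left (2 * A) (by ring)
  have h2W : 2 ∣ W := by rw [hWd]; exact dvd_mul_right _ _
  have hW0 : 0 < W := by rw [hWd]; positivity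
  have hW2 : 2 ≤ W := Nat.le_of_dvd hW0 h2W
  have h2A : 2 * A ≤ W := by
    rw [hWd]
    exact Nat.mul_le_mul_left _ (Nat.le_mul_of_pos_left _ hf0)
  have hten : Tendsto (fun X : ℕ => X / W) atTop atTop := Nat.tendsto_div_const_atTop hW0.ne'
  obtain ⟨X₀, hX₀⟩ := eventually_atTop.1 ((hten.eventually (hK A)).and ((size C W hW2).and
    (eventually_ge_atTop (100 * W))))
  refine ⟨W, X₀, hW0, fun r hadm X hX hrX V hV => ?_⟩
  obtain ⟨hKX, hsize, hX100⟩ := hX₀ X hX
  obtain ⟨N, hN⟩ : ∃ N : ℕ, N = X / W := ⟨_, rfl⟩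
  rw [← hN] at hKX hsize
  have hWN : W * N ≤ X := by rw [hN]; exact Nat.mul_div_le X W
  have hN100 : 100 ≤ N := by
    rw [hN, Nat.le_div_iff_mul_le hW0]
    exact hX100
  have hrN : ∀ i, 100 * |r i| ≤ N := by
    intro i
    have h1 := hrX i
    have h2 : 100 * (r i).natAbs ≤ N := by
      rw [hN, Nat.le_div_iff_mul_le hW0]
      have h3 : ((100 * (r i).natAbs * W : ℕ) : ℤ) ≤ X := by
        push_cast
        calc 100 * |r i| * (W : ℤ) = 100 * (W * |r i|) := by ring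
          _ ≤ X := h1
      exact_mod_cast h3
    have h3 : ((100 * (r i).natAbs : ℕ) : ℤ) ≤ N := by exact_mod_cast h2
    push_cast at h3
    exact h3
  have hvN : ∀ v ∈ V, 4 * ((W : ℤ) * v) ≤ N ∧ 0 ≤ (W : ℤ) * v := by
    intro v hv
    constructor
    · have h1 : 4 * (W * v) ≤ N := by
        rw [hN, Nat.le_div_iff_mul_le hW0]
        calc 4 * (W * v) * W = 4 * (W * (W * v)) := by ring
          _ ≤ X := hV v hv
      exact_mod_cast h1
    · positivity
  obtain ⟨F, hF⟩ : ∃ F : ι × ℕ → ℤ × ℤ, F = fun p => ((m p.1 : ℤ), r p.1 + W * (p.2 : ℤ)) := ⟨_, rfl⟩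
  have hFinj : ∀ i u v, F (i, u) = F (i, v) → u = v := by
    intro i u v hh
    rw [hF] at hh
    simp only [Prod.mk.injEq, true_and, add_right_inj] at hh
    have hW' : (W : ℤ) ≠ 0 := by exact_mod_cast hW0.ne'
    exact_mod_cast mul_left_cancel₀ hW' hh
  have hcop : ∀ i, ∀ v : ℕ, IsCoprime (m i : ℤ) (r i + W * (v : ℤ)) := by
    intro i v
    have h1 : IsCoprime (m i : ℤ) (r i) := by
      rw [Int.isCoprime_iff_gcd_eq_one]
      by_contra hg
      obtain ⟨p, hp, hpd⟩ := Nat.exists_prime_and_dvd hg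
      obtain ⟨n, hn⟩ := hadm p hp
      apply hn i
      have h2 : (p : ℤ) ∣ m i := (Int.natCast_dvd_natCast.2 hpd).trans (Int.gcd_dvd_left _ _)
      have h3 : (p : ℤ) ∣ r i := (Int.natCast_dvd_natCast.2 hpd).trans (Int.gcd_dvd_right _ _)
      exact dvd_add (dvd_mul_of_dvd_left h2 _) h3
    obtain ⟨c, hc⟩ := (hmA i).trans hAW
    have h2 := h1.add_mul_left_right ((c : ℤ) * v)
    have e : r i + (W : ℤ) * v = r i + (m i : ℤ) * ((c : ℤ) * v) := by
      rw [hc]; push_cast; ring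
    rw [e]
    exact h2
  have hFadf : ∀ i, ∀ v ∈ V, Adf A N (F (i, v)) := by
    intro i v hv
    have h1 : m i ≤ A := Nat.le_of_dvd hA0 (hmA i)
    obtain ⟨h2, h2'⟩ := hvN v hv
    have h3 := hm i
    have h4 := hrN i
    obtain ⟨h5, h6⟩ := abs_le.1 (show |r i| ≤ (N : ℤ) / 100 by omega)
    rw [hF]
    refine ⟨?_, ?_, ?_, hcop i v, ?_⟩
    · show (m i : ℤ) ≠ 0
      exact_mod_cast (by omega : m i ≠ 0)
    · show |(m i : ℤ)| ≤ A
      rw [abs_of_nonneg (by positivity)]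
      exact_mod_cast h1
    · show |r i + W * (v : ℤ)| ≤ N
      rw [abs_le]
      generalize (W : ℤ) * v = w at h2 h2'
      constructor <;> omega
    · intro t ht1 ht2
      show (N : ℝ) / 24 ≤ ((m i : ℤ) : ℝ) * t + ((r i + W * (v : ℤ) : ℤ) : ℝ)
      have h7 : (0 : ℝ) ≤ (((W : ℤ) * v : ℤ) : ℝ) := by exact_mod_cast h2'
      have h8 : -(N : ℝ) / 100 ≤ (r i : ℝ) := by
        have h9 : -(N : ℤ) ≤ 100 * r i := by omega
        have h10 : -(N : ℝ) ≤ 100 * (r i : ℝ) := by exact_mod_cast h9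
        linarith
      have h9 : (1 : ℝ) ≤ m i := by exact_mod_cast h3
      have h10 : (0 : ℝ) ≤ N := Nat.cast_nonneg N
      have h11 : 0 ≤ t := by linarith
      have h12 : t ≤ m i * t := by nlinarith
      push_cast at h7 ⊢
      linarith
  obtain ⟨Rr, hR⟩ : ∃ Rr : ℤ × ℤ → ℤ × ℤ → Prop,
      Rr = fun f g => (N : ℝ) / Real.log N ^ C ≤ (cntN {f, g} N : ℝ) := ⟨_, rfl⟩
  refine ⟨fun p q => F p ≠ F q ∧ ¬ Rr (F p) (F q), ?_, ?_, ?_⟩
  · rintro p q ⟨h1, h2⟩
    refine ⟨fun h => h1 h.symm, ?_⟩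
    rw [hR] at h2 ⊢
    simp only at h2 ⊢
    rw [Finset.pair_comm]
    exact h2
  · intro s B hBV hBinj hcon
    obtain ⟨S, c, hS, hcnt⟩ := hKX (fun g i => F (s g, B g i)) (by
      rintro ⟨g, i⟩ ⟨g', i'⟩ h
      simp only at h
      by_cases hgg : g = g'
      · subst hgg
        rw [hBinj g (hFinj _ _ _ h)]
      · exact absurd h (hcon g g' hgg i i').1) (fun g i => hFadf _ _ (hBV g i)) (by
      intro p hp hpK
      obtain ⟨n, hn⟩ := hadm p hp
      refine ⟨n, fun g i => ?_⟩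
      rw [hF]
      simp only
      intro h'
      apply hn (s g)
      have h1 : (p : ℤ) ∣ W * (B g i : ℤ) := by
        have h2 : p ∣ W := ((Nat.Prime.dvd_factorial hp).2 hpK).trans hfW
        exact dvd_mul_of_dvd_left (by exact_mod_cast h2) _
      have e : (m (s g) : ℤ) * n + r (s g) = ((m (s g) : ℤ) * n + (r (s g) + W * (B g i : ℤ))) -
          W * (B g i : ℤ) := by ring
      rw [e]
      exact dvd_sub h' h1)
    have hS2 : 1 < S.card := by
      by_contra h
      have h1 : (S.card : ℝ) ≤ 1 := by exact_mod_cast (not_lt.1 h)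
      push_cast at hS
      linarith
    obtain ⟨g, hg, g', hg', hgg⟩ := one_lt_card.1 hS2
    apply (hcon g g' hgg (c g) (c g')).2
    rw [hR]
    refine hcnt.trans ?_
    have h1 : ({F (s g, B g (c g)), F (s g', B g' (c g'))} : Finset (ℤ × ℤ)) ⊆
        S.image (fun g => F (s g, B g (c g))) := by
      intro f hf
      rw [mem_insert, mem_singleton] at hf
      rcases hf with rfl | rfl
      · exact mem_image.2 ⟨g, hg, rfl⟩
      · exact mem_image.2 ⟨g', hg', rfl⟩
    exact_mod_cast cntN_anti h1 N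
  · intro i j g a b hg hgb hga hab hne u hu v hv hNN
    have ha : 1 ≤ a := by
      rcases Nat.eq_zero_or_pos a with h | h
      · have := hm j
        rw [← hga, h, mul_zero] at this
        exact absurd this (by norm_num)
      · exact h
    have hb : 1 ≤ b := by
      rcases Nat.eq_zero_or_pos b with h | h
      · have := hm i
        rw [← hgb, h, mul_zero] at this
        exact absurd this (by norm_num)
      · exact h
    have hxc : ∀ (w : ℕ), IsCoprime (b : ℤ) (r i + W * (w : ℤ)) := fun w =>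
      (hcop i w).of_isCoprime_of_dvd_left (by rw [← hgb]; push_cast; exact dvd_mul_left _ _)
    have hyc : ∀ (w : ℕ), IsCoprime (a : ℤ) (r j + W * (w : ℤ)) := fun w =>
      (hcop j w).of_isCoprime_of_dvd_left (by rw [← hga]; push_cast; exact dvd_mul_left _ _)
    have habZ : IsCoprime (a : ℤ) (b : ℤ) := Nat.isCoprime_iff_coprime.2 hab
    have e0 : (a : ℤ) * r i - b * r j + W * ((a : ℤ) * u - b * v) =
        a * (r i + W * (u : ℤ)) - b * (r j + W * (v : ℤ)) := by ring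
    have hadm' : Adm a b (a * r i - b * r j + W * ((a : ℤ) * u - b * v)) := by
      rw [e0]
      refine ⟨ha, hb, ?_, hab, ?_, ?_, ?_⟩
      · intro h0
        have h1 : (a : ℤ) * (r i + W * (u : ℤ)) = b * (r j + W * (v : ℤ)) := by linarith
        have h2 : IsUnit (a : ℤ) := by
          have h3 : (a : ℤ) ∣ b * (r j + W * (v : ℤ)) := ⟨_, h1.symm⟩
          exact (habZ.mul_right (hyc v)).isUnit_of_dvd' dvd_rfl h3
        have h3 : IsUnit (b : ℤ) := by
          have h3 : (b : ℤ) ∣ a * (r i + W * (u : ℤ)) := ⟨_, h1⟩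
          exact (habZ.symm.mul_right (hxc u)).isUnit_of_dvd' dvd_rfl h3
        rw [Int.isUnit_iff] at h2 h3
        omega
      · have h1 := ((habZ.mul_right (hyc v)).neg_right).add_mul_left_right (r i + W * (u : ℤ))
        have e : (a : ℤ) * (r i + W * (u : ℤ)) - b * (r j + W * (v : ℤ)) =
            -((b : ℤ) * (r j + W * (v : ℤ))) + a * (r i + W * (u : ℤ)) := by ring
        rw [e]
        exact h1
      · have h1 := (habZ.symm.mul_right (hxc u)).add_mul_left_right (-(r j + W * (v : ℤ)))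
        have e : (a : ℤ) * (r i + W * (u : ℤ)) - b * (r j + W * (v : ℤ)) =
            (a : ℤ) * (r i + W * (u : ℤ)) + b * (-(r j + W * (v : ℤ))) := by ring
        rw [e]
        exact h1
      · rintro ⟨hao, hbo, hco⟩
        apply (Int.not_even_iff_odd.2 hco)
        obtain ⟨n, hn⟩ := hadm 2 Nat.prime_two
        have h1 := hn i
        have h2 := hn j
        rw [← hgb] at h1
        rw [← hga] at h2
        push_cast at h1 h2
        have hWe : Even (W : ℤ) := by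
          rw [even_iff_two_dvd]; exact_mod_cast h2W
        have h3 : Odd ((g : ℤ) * b * n + r i) := by
          rw [← Int.not_even_iff_odd, even_iff_two_dvd]; exact h1
        have h4 : Odd ((g : ℤ) * a * n + r j) := by
          rw [← Int.not_even_iff_odd, even_iff_two_dvd]; exact h2
        have haoZ : Odd (a : ℤ) := by exact_mod_cast hao
        have hboZ : Odd (b : ℤ) := by exact_mod_cast hbo
        have h5 : Even ((a : ℤ) * ((g : ℤ) * b * n + r i) - b * ((g : ℤ) * a * n + r j)) :=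
          (haoZ.mul h3).sub_odd (hboZ.mul h4)
        have e : (a : ℤ) * (r i + W * (u : ℤ)) - b * (r j + W * (v : ℤ)) =
            ((a : ℤ) * ((g : ℤ) * b * n + r i) - b * ((g : ℤ) * a * n + r j)) + W * (a * u - b * v) := by ring
        rw [e]
        exact h5.add (hWe.mul_right _)
    refine ⟨hadm', ?_⟩
    have hij : F (i, u) ≠ F (j, v) := by
      rw [hF]
      intro h
      simp only [Prod.mk.injEq, Nat.cast_inj] at h
      apply hne
      have h1 := h.1
      rw [← hgb, ← hga] at h1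
      exact (Nat.eq_of_mul_eq_mul_left hg h1).symm
    have h1 : Rr (F (i, u)) (F (j, v)) := by
      by_contra h
      exact hNN ⟨hij, h⟩
    rw [hR, hF] at h1
    simp only [← hgb, ← hga] at h1
    have hle : ∀ l, ∀ w ∈ V, (m l : ℤ) * N + (r l + W * (w : ℤ)) ≤ X := by
      intro l w hw
      obtain ⟨h3, h4⟩ := hvN w hw
      have h5 := hrN l
      obtain ⟨h6, h7⟩ := abs_le.1 (show |r l| ≤ (N : ℤ) / 100 by omega)
      have h8 : (m l : ℤ) * N ≤ A * N :=
        mul_le_mul_of_nonneg_right (by exact_mod_cast Nat.le_of_dvd hA0 (hmA l)) (by positivity)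
      have h9 : 2 * (A : ℤ) * N ≤ W * N :=
        mul_le_mul_of_nonneg_right (by exact_mod_cast h2A) (by positivity)
      have h10 : (W : ℤ) * N ≤ X := by exact_mod_cast hWN
      have h11 : (1 : ℤ) * N ≤ A * N :=
        mul_le_mul_of_nonneg_right (by exact_mod_cast hA0) (by positivity)
      generalize (W : ℤ) * w = w' at h3 h4 ⊢
      generalize (W : ℤ) * N = z at h9 h10
      have h12 : 2 * ((A : ℤ) * N) ≤ z := by linarith
      generalize (A : ℤ) * N = y at h8 h11 h12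
      omega
    refine hsize.trans (h1.trans (Nat.cast_le.2 (cnt_le_count2 hg hb ?_ ?_ ?_)))
    · rw [hgb]; exact hle i u hu
    · rw [hga]; exact hle j v hv
    · ring

end Pool.Agent.H35_SL
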