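import Mathlib

set_option autoImplicit false

/-!
The system of linear forms which belongs to the first three iterates of the equation `a p - b q = c`.
-/

namespace Pool.Agent.H35_SL

open Finset

/-- integers `r₀, ..., r₃` with `a r_i - b r_(i+1) = c` -/
theorem iter_exists {a b : ℕ} (ha : 1 ≤ a) (hb : 1 ≤ b) (hab : Nat.Coprime a b) (c : ℤ) :
    ∃ r0 r1 r2 r3 : ℤ, a * r0 - b * r1 = c ∧ a * r1 - b * r2 = c ∧ a * r2 - b * r3 = c ∧
      (|r0| ≤ (a : ℤ) ^ 3 * b ^ 3 + (a ^ 2 + a + 1) * |c| ∧ |r1| ≤ (a : ℤ) ^ 3 * b ^ 3 + (a ^ 2 + a + 1) * |c| ∧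
        |r2| ≤ (a : ℤ) ^ 3 * b ^ 3 + (a ^ 2 + a + 1) * |c| ∧ |r3| ≤ (a : ℤ) ^ 3 * b ^ 3 + (a ^ 2 + a + 1) * |c|) := by
  have hZ : IsCoprime (a : ℤ) (b : ℤ) := Nat.isCoprime_iff_coprime.2 hab
  have haZ : (1 : ℤ) ≤ a := by exact_mod_cast ha
  have hbZ : (1 : ℤ) ≤ b := by exact_mod_cast hb
  have hb0 : (b : ℤ) ≠ 0 := by omega
  have hb3 : (0 : ℤ) < (b : ℤ) ^ 3 := by positivity
  obtain ⟨x, y, hxy⟩ := hZ.pow (m := 3) (n := 3)
  obtain ⟨r0, hr0⟩ : ∃ r0 : ℤ, r0 = (x * (c * ((a : ℤ) ^ 2 + a * b + b ^ 2))) % (b : ℤ) ^ 3 := ⟨_, rfl⟩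
  have h00 : 0 ≤ r0 := by rw [hr0]; exact Int.emod_nonneg _ hb3.ne'
  have h01 : r0 < (b : ℤ) ^ 3 := by rw [hr0]; exact Int.emod_lt_of_pos _ hb3
  have hdiv : (b : ℤ) ^ 3 ∣ (a : ℤ) ^ 3 * r0 - c * ((a : ℤ) ^ 2 + a * b + b ^ 2) := by
    have h1 : (b : ℤ) ^ 3 ∣ r0 - x * (c * ((a : ℤ) ^ 2 + a * b + b ^ 2)) := by
      rw [hr0]
      exact (Int.mod_modEq _ _).symm.dvd
    have h2 : (a : ℤ) ^ 3 * r0 - c * ((a : ℤ) ^ 2 + a * b + b ^ 2) =
        (a : ℤ) ^ 3 * (r0 - x * (c * ((a : ℤ) ^ 2 + a * b + b ^ 2))) -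
        (b : ℤ) ^ 3 * (y * (c * ((a : ℤ) ^ 2 + a * b + b ^ 2))) := by
      linear_combination (c * ((a : ℤ) ^ 2 + a * b + b ^ 2)) * hxy
    rw [h2]
    exact dvd_sub (dvd_mul_of_dvd_right h1 _) (dvd_mul_right _ _)
  have hbb3 : (b : ℤ) ∣ (b : ℤ) ^ 3 := dvd_pow_self _ (by norm_num)
  have hbb2 : (b : ℤ) ∣ (b : ℤ) ^ 2 := dvd_pow_self _ (by norm_num)
  have hcop2 : IsCoprime (b : ℤ) ((a : ℤ) ^ 2) := hZ.symm.pow_right
  have d1 : (b : ℤ) ∣ a * r0 - c := by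
    have h1 : (b : ℤ) ∣ (a : ℤ) ^ 2 * (a * r0 - c) := by
      have e : (a : ℤ) ^ 2 * (a * r0 - c) = ((a : ℤ) ^ 3 * r0 - c * ((a : ℤ) ^ 2 + a * b + b ^ 2)) +
          b * (c * (a + b)) := by ring
      rw [e]
      exact dvd_add (hbb3.trans hdiv) (dvd_mul_right _ _)
    exact hcop2.dvd_of_dvd_mul_left h1
  obtain ⟨r1, hr1⟩ := d1
  have hdiv2 : (b : ℤ) ^ 2 ∣ (a : ℤ) ^ 2 * r1 - c * (a + b) := by
    have e : (a : ℤ) ^ 3 * r0 - c * ((a : ℤ) ^ 2 + a * b + b ^ 2) = b * ((a : ℤ) ^ 2 * r1 - c * (a + b)) := by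
      linear_combination (a : ℤ) ^ 2 * hr1
    rw [e, pow_succ' (b : ℤ) 2] at hdiv
    exact (mul_dvd_mul_iff_left hb0).1 hdiv
  have d2 : (b : ℤ) ∣ a * r1 - c := by
    have h1 : (b : ℤ) ∣ (a : ℤ) * (a * r1 - c) := by
      have e : (a : ℤ) * (a * r1 - c) = ((a : ℤ) ^ 2 * r1 - c * (a + b)) + b * c := by ring
      rw [e]
      exact dvd_add (hbb2.trans hdiv2) (dvd_mul_right _ _)
    exact hZ.symm.dvd_of_dvd_mul_left h1
  obtain ⟨r2, hr2⟩ := d2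
  have hdiv3 : (b : ℤ) ∣ a * r2 - c := by
    have e : (a : ℤ) ^ 2 * r1 - c * (a + b) = b * (a * r2 - c) := by
      linear_combination (a : ℤ) * hr2
    rw [e, pow_two] at hdiv2
    exact (mul_dvd_mul_iff_left hb0).1 hdiv2
  obtain ⟨r3, hr3⟩ := hdiv3
  have step : ∀ x y B : ℤ, a * x - c = b * y → |x| ≤ B → |y| ≤ a * B + |c| := by
    intro x y B h hx
    have h1 : |y| ≤ |(b : ℤ) * y| := by
      rw [abs_mul, abs_of_pos (by omega : (0 : ℤ) < b)]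
      nlinarith [abs_nonneg y]
    have h2 : |(b : ℤ) * y| ≤ |(a : ℤ) * x| + |c| := by
      rw [← h]; exact abs_sub _ _
    have h2' : |(a : ℤ) * x| = a * |x| := by rw [abs_mul, abs_of_pos (by omega : (0 : ℤ) < a)]
    rw [h2'] at h2
    have h3 : (a : ℤ) * |x| ≤ a * B := mul_le_mul_of_nonneg_left hx (by omega)
    linarith
  have b0 : |r0| ≤ (b : ℤ) ^ 3 := by rw [abs_of_nonneg h00]; exact h01.le
  have b1 := step r0 r1 _ hr1 b0
  have b2 := step r1 r2 _ hr2 b1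
  have b3 := step r2 r3 _ hr3 b2
  have hc0 := abs_nonneg c
  have ha2 : (1 : ℤ) ≤ (a : ℤ) ^ 2 := one_le_pow₀ haZ
  have e1 : (b : ℤ) ^ 3 ≤ a * (b : ℤ) ^ 3 := by nlinarith
  have e2 : (a : ℤ) * (b : ℤ) ^ 3 ≤ a ^ 2 * (b : ℤ) ^ 3 := by nlinarith [mul_pos (by omega : (0 : ℤ) < a) hb3]
  have e3 : (a : ℤ) ^ 2 * (b : ℤ) ^ 3 ≤ a ^ 3 * (b : ℤ) ^ 3 := by
    nlinarith [mul_pos (by positivity : (0 : ℤ) < (a : ℤ) ^ 2) hb3]
  have f1 : (0 : ℤ) ≤ (a : ℤ) * |c| := by positivity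
  have f2 : (0 : ℤ) ≤ (a : ℤ) ^ 2 * |c| := by positivity
  refine ⟨r0, r1, r2, r3, by linarith, by linarith, by linarith, ?_, ?_, ?_, ?_⟩
  · linarith
  · linarith
  · have : |r2| ≤ (a : ℤ) ^ 2 * (b : ℤ) ^ 3 + (a * |c| + |c|) := by
      calc |r2| ≤ a * (a * (b : ℤ) ^ 3 + |c|) + |c| := b2
        _ = (a : ℤ) ^ 2 * (b : ℤ) ^ 3 + (a * |c| + |c|) := by ring
    linarith
  · calc |r3| ≤ a * (a * (a * (b : ℤ) ^ 3 + |c|) + |c|) + |c| := b3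
      _ = (a : ℤ) ^ 3 * b ^ 3 + (a ^ 2 + a + 1) * |c| := by ring

theorem res2 : ∀ a b c : ZMod 2, a ≠ 0 → b ≠ 0 → c = 0 → ∃ x0 x1 x2 x3 : ZMod 2, x0 ≠ 0 ∧ x1 ≠ 0 ∧ x2 ≠ 0 ∧ x3 ≠ 0 ∧
    a * x0 - b * x1 = c ∧ a * x1 - b * x2 = c ∧ a * x2 - b * x3 = c := by decide

theorem res3 : ∀ a b c : ZMod 3, a ≠ 0 → b ≠ 0 → (a = b → c = 0) →
    ∃ x0 x1 x2 x3 : ZMod 3, x0 ≠ 0 ∧ x1 ≠ 0 ∧ x2 ≠ 0 ∧ x3 ≠ 0 ∧
    a * x0 - b * x1 = c ∧ a * x1 - b * x2 = c ∧ a * x2 - b * x3 = c := by decide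

/-- the system of the four linear forms has no fixed prime divisor -/
theorem iter_adm {a b : ℕ} {c r0 r1 r2 r3 : ℤ} (hab : Nat.Coprime a b) (hac : IsCoprime (a : ℤ) c)
    (hbc : IsCoprime (b : ℤ) c) (hodd : ¬ (Odd a ∧ Odd b ∧ Odd c))
    (h3 : (3 : ℤ) ∣ a * b * c ∨ ¬ (3 : ℤ) ∣ (a : ℤ) - b)
    (e0 : a * r0 - b * r1 = c) (e1 : a * r1 - b * r2 = c) (e2 : a * r2 - b * r3 = c) (p : ℕ) (hp : p.Prime) :
    ∃ n : ℤ, ¬ (p : ℤ) ∣ (b : ℤ) ^ 3 * n + r0 ∧ ¬ (p : ℤ) ∣ (a : ℤ) * b ^ 2 * n + r1 ∧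
      ¬ (p : ℤ) ∣ (a : ℤ) ^ 2 * b * n + r2 ∧ ¬ (p : ℤ) ∣ (a : ℤ) ^ 3 * n + r3 := by
  have : Fact p.Prime := ⟨hp⟩
  have hpZ : Prime (p : ℤ) := Nat.prime_iff_prime_int.1 hp
  have hZ : IsCoprime (a : ℤ) (b : ℤ) := Nat.isCoprime_iff_coprime.2 hab
  have hnu : ∀ x y : ℤ, IsCoprime x y → (p : ℤ) ∣ x → ¬ (p : ℤ) ∣ y := fun x y h h1 h2 =>
    hpZ.not_isUnit (h.isUnit_of_dvd' h1 h2)
  by_cases hpb : (p : ℤ) ∣ b
  · have hpa : ¬ (p : ℤ) ∣ a := fun h => hnu _ _ hZ h hpb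
    have hpc : ¬ (p : ℤ) ∣ c := hnu _ _ hbc hpb
    have key : ∀ x y : ℤ, a * x - b * y = c → ¬ (p : ℤ) ∣ x := by
      intro x y h hx
      apply hpc
      rw [← h]
      exact dvd_sub (dvd_mul_of_dvd_right hx _) (dvd_mul_of_dvd_left hpb _)
    have hx : ∃ n : ℤ, ¬ (p : ℤ) ∣ (a : ℤ) ^ 3 * n + r3 := by
      by_cases h : (p : ℤ) ∣ r3
      · refine ⟨1, fun h1 => hpa (hpZ.dvd_of_dvd_pow (n := 3) ?_)⟩
        have e : (a : ℤ) ^ 3 = ((a : ℤ) ^ 3 * 1 + r3) - r3 := by ring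
        rw [e]
        exact dvd_sub h1 h
      · exact ⟨0, by simpa using h⟩
    obtain ⟨n, hn⟩ := hx
    refine ⟨n, ?_, ?_, ?_, hn⟩
    · intro h
      apply key r0 r1 e0
      have e : r0 = ((b : ℤ) ^ 3 * n + r0) - b * (b ^ 2 * n) := by ring
      rw [e]
      exact dvd_sub h (dvd_mul_of_dvd_left hpb _)
    · intro h
      apply key r1 r2 e1
      have e : r1 = ((a : ℤ) * b ^ 2 * n + r1) - b * (a * b * n) := by ring
      rw [e]
      exact dvd_sub h (dvd_mul_of_dvd_left hpb _)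
    · intro h
      apply key r2 r3 e2
      have e : r2 = ((a : ℤ) ^ 2 * b * n + r2) - b * (a ^ 2 * n) := by ring
      rw [e]
      exact dvd_sub h (dvd_mul_of_dvd_left hpb _)
  by_cases hpa : (p : ℤ) ∣ a
  · have hpc : ¬ (p : ℤ) ∣ c := hnu _ _ hac hpa
    have key : ∀ x y : ℤ, a * x - b * y = c → ¬ (p : ℤ) ∣ y := by
      intro x y h hx
      apply hpc
      rw [← h]
      exact dvd_sub (dvd_mul_of_dvd_left hpa _) (dvd_mul_of_dvd_right hx _)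
    have hx : ∃ n : ℤ, ¬ (p : ℤ) ∣ (b : ℤ) ^ 3 * n + r0 := by
      by_cases h : (p : ℤ) ∣ r0
      · refine ⟨1, fun h1 => hpb (hpZ.dvd_of_dvd_pow (n := 3) ?_)⟩
        have e : (b : ℤ) ^ 3 = ((b : ℤ) ^ 3 * 1 + r0) - r0 := by ring
        rw [e]
        exact dvd_sub h1 h
      · exact ⟨0, by simpa using h⟩
    obtain ⟨n, hn⟩ := hx
    refine ⟨n, hn, ?_, ?_, ?_⟩
    · intro h
      apply key r0 r1 e0
      have e : r1 = ((a : ℤ) * b ^ 2 * n + r1) - a * (b ^ 2 * n) := by ring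
      rw [e]
      exact dvd_sub h (dvd_mul_of_dvd_left hpa _)
    · intro h
      apply key r1 r2 e1
      have e : r2 = ((a : ℤ) ^ 2 * b * n + r2) - a * (a * b * n) := by ring
      rw [e]
      exact dvd_sub h (dvd_mul_of_dvd_left hpa _)
    · intro h
      apply key r2 r3 e2
      have e : r3 = ((a : ℤ) ^ 3 * n + r3) - a * (a ^ 2 * n) := by ring
      rw [e]
      exact dvd_sub h (dvd_mul_of_dvd_left hpa _)
  have hcast : ∀ x : ℤ, (p : ℤ) ∣ x ↔ (x : ZMod p) = 0 := fun x => (ZMod.intCast_zmod_eq_zero_iff_dvd x p).symm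
  have ha0 : ((a : ℕ) : ZMod p) ≠ 0 := by
    intro h; apply hpa; rw [hcast]; exact_mod_cast h
  have hb0 : ((b : ℕ) : ZMod p) ≠ 0 := by
    intro h; apply hpb; rw [hcast]; exact_mod_cast h
  have E0 : (a : ZMod p) * r0 - b * r1 = c := by
    have := congrArg (fun x : ℤ => (x : ZMod p)) e0
    push_cast at this
    exact this
  have E1 : (a : ZMod p) * r1 - b * r2 = c := by
    have := congrArg (fun x : ℤ => (x : ZMod p)) e1
    push_cast at this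
    exact this
  have E2 : (a : ZMod p) * r2 - b * r3 = c := by
    have := congrArg (fun x : ℤ => (x : ZMod p)) e2
    push_cast at this
    exact this
  have fin : (∃ n : ZMod p, (b : ZMod p) ^ 3 * n + r0 ≠ 0 ∧ (a : ZMod p) * b ^ 2 * n + r1 ≠ 0 ∧
      (a : ZMod p) ^ 2 * b * n + r2 ≠ 0 ∧ (a : ZMod p) ^ 3 * n + r3 ≠ 0) →
      ∃ n : ℤ, ¬ (p : ℤ) ∣ (b : ℤ) ^ 3 * n + r0 ∧ ¬ (p : ℤ) ∣ (a : ℤ) * b ^ 2 * n + r1 ∧
      ¬ (p : ℤ) ∣ (a : ℤ) ^ 2 * b * n + r2 ∧ ¬ (p : ℤ) ∣ (a : ℤ) ^ 3 * n + r3 := by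
    rintro ⟨n, h4, h5, h6, h7⟩
    have hn : (((n.val : ℕ) : ℤ) : ZMod p) = n := by
      rw [Int.cast_natCast, ZMod.natCast_val, ZMod.cast_id]
    refine ⟨((n.val : ℕ) : ℤ), ?_, ?_, ?_, ?_⟩
    · rw [hcast, Int.cast_add, Int.cast_mul, hn]; push_cast; exact h4
    · rw [hcast, Int.cast_add, Int.cast_mul, hn]; push_cast; exact h5
    · rw [hcast, Int.cast_add, Int.cast_mul, hn]; push_cast; exact h6
    · rw [hcast, Int.cast_add, Int.cast_mul, hn]; push_cast; exact h7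
  apply fin
  have small : (∃ x0 x1 x2 x3 : ZMod p, x0 ≠ 0 ∧ x1 ≠ 0 ∧ x2 ≠ 0 ∧ x3 ≠ 0 ∧
      (a : ZMod p) * x0 - b * x1 = c ∧ (a : ZMod p) * x1 - b * x2 = c ∧ (a : ZMod p) * x2 - b * x3 = c) →
      ∃ n : ZMod p, (b : ZMod p) ^ 3 * n + r0 ≠ 0 ∧ (a : ZMod p) * b ^ 2 * n + r1 ≠ 0 ∧
      (a : ZMod p) ^ 2 * b * n + r2 ≠ 0 ∧ (a : ZMod p) ^ 3 * n + r3 ≠ 0 := by
    rintro ⟨x0, x1, x2, x3, g0, g1, g2, g3, k0, k1, k2⟩
    have hb3 : (b : ZMod p) ^ 3 ≠ 0 := pow_ne_zero _ hb0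
    obtain ⟨n, hn⟩ : ∃ n : ZMod p, (b : ZMod p) ^ 3 * n = x0 - r0 :=
      ⟨(x0 - r0) / (b : ZMod p) ^ 3, mul_div_cancel₀ _ hb3⟩
    have i0 : (b : ZMod p) ^ 3 * n + r0 = x0 := by rw [hn]; ring
    have i1 : (a : ZMod p) * b ^ 2 * n + r1 = x1 := by
      apply mul_left_cancel₀ hb0
      linear_combination (a : ZMod p) * hn + k0 - E0
    have i2 : (a : ZMod p) ^ 2 * b * n + r2 = x2 := by
      apply mul_left_cancel₀ hb0
      linear_combination (a : ZMod p) * i1 + k1 - E1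
    have i3 : (a : ZMod p) ^ 3 * n + r3 = x3 := by
      apply mul_left_cancel₀ hb0
      linear_combination (a : ZMod p) * i2 + k2 - E2
    exact ⟨n, by rw [i0]; exact g0, by rw [i1]; exact g1, by rw [i2]; exact g2, by rw [i3]; exact g3⟩
  rcases Nat.lt_or_ge 4 p with hp4 | hp4
  · obtain ⟨s, hs⟩ : ∃ s : Fin 4 → ZMod p, s = ![-(r0 : ZMod p) / (b : ZMod p) ^ 3,
        -(r1 : ZMod p) / ((a : ZMod p) * b ^ 2), -(r2 : ZMod p) / ((a : ZMod p) ^ 2 * b),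
        -(r3 : ZMod p) / (a : ZMod p) ^ 3] := ⟨_, rfl⟩
    have h1 : ∃ n : ZMod p, n ∉ univ.image s := by
      by_contra hcon
      push Not at hcon
      have h5 : (univ : Finset (ZMod p)) ⊆ univ.image s := fun x _ => hcon x
      have h6 := (card_le_card h5).trans card_image_le
      rw [card_univ, ZMod.card, card_univ, Fintype.card_fin] at h6
      omega
    obtain ⟨n, hn⟩ := h1
    have h4 : ∀ i, n ≠ s i := fun i h => hn (mem_image.2 ⟨i, mem_univ _, h.symm⟩)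
    have g0 := h4 0
    have g1 := h4 1
    have g2 := h4 2
    have g3 := h4 3
    rw [hs] at g0 g1 g2 g3
    refine ⟨n, ?_, ?_, ?_, ?_⟩
    · intro h
      apply g0
      show n = -(r0 : ZMod p) / (b : ZMod p) ^ 3
      rw [eq_div_iff (pow_ne_zero _ hb0), mul_comm]
      exact eq_neg_of_add_eq_zero_left h
    · intro h
      apply g1
      show n = -(r1 : ZMod p) / ((a : ZMod p) * b ^ 2)
      rw [eq_div_iff (mul_ne_zero ha0 (pow_ne_zero _ hb0)), mul_comm]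
      exact eq_neg_of_add_eq_zero_left h
    · intro h
      apply g2
      show n = -(r2 : ZMod p) / ((a : ZMod p) ^ 2 * b)
      rw [eq_div_iff (mul_ne_zero (pow_ne_zero _ ha0) hb0), mul_comm]
      exact eq_neg_of_add_eq_zero_left h
    · intro h
      apply g3
      show n = -(r3 : ZMod p) / (a : ZMod p) ^ 3
      rw [eq_div_iff (pow_ne_zero _ ha0), mul_comm]
      exact eq_neg_of_add_eq_zero_left h
  · apply small
    have hp2 := hp.two_le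
    interval_cases p
    · refine res2 _ _ _ ha0 hb0 ?_
      rw [← hcast]
      have h1 : Odd a := by
        rw [← Nat.not_even_iff_odd, even_iff_two_dvd]
        intro h; exact hpa (by exact_mod_cast h)
      have h2 : Odd b := by
        rw [← Nat.not_even_iff_odd, even_iff_two_dvd]
        intro h; exact hpb (by exact_mod_cast h)
      have h4 : ¬ Odd c := fun h => hodd ⟨h1, h2, h⟩
      rw [Int.not_odd_iff_even] at h4
      exact_mod_cast h4.two_dvd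
    · refine res3 _ _ _ ha0 hb0 ?_
      intro hd1
      rw [← hcast]
      rcases h3 with h | h
      · have h' : ((3 : ℕ) : ℤ) ∣ (a : ℤ) * b * c := by
          rw [Nat.cast_ofNat]
          exact h
        rcases hpZ.dvd_or_dvd h' with h | h
        · rcases hpZ.dvd_or_dvd h with h | h
          · exact absurd h hpa
          · exact absurd h hpb
        · exact h
      · exfalso
        apply h
        have h4 : (((a : ℤ) - b : ℤ) : ZMod 3) = 0 := by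
          push_cast
          exact sub_eq_zero.2 hd1
        exact_mod_cast (hcast _).2 h4
    · exact absurd hp (by norm_num)

end Pool.Agent.H35_SL
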